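import Pool.Agent.MP_2e9a04_lc.H93.Main

namespace Pool.Agent.Results.MP_2e9a04_lc.NPHard

open Pool.Agent.MP_2e9a04_lc.H93

/-- MIN-STAB-TRI (stabbing number over all lines of the plane) is NP-hard under polynomial-time
many-one reductions: every language in NP is mapped in polynomial time to well-formed instances,
written in binary, so that members go to yes-instances and non-members to no-instances. -/
theorem result : ∀ L ∈ N68a2faeb.NP,
    ∃ f : List Bool → List (ℚ × ℚ) × ℕ, N68a2faeb.IsPolyTime f ∧
      ∀ x, ValidInput (f x) ∧ (L x = true ↔ MinStabTri (f x)) := by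
  intro L hL
  obtain ⟨f, h1, h2⟩ := npHard L hL
  exact ⟨f, h1.isPolyTime, h2⟩

end Pool.Agent.Results.MP_2e9a04_lc.NPHard
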